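import Mathlib

namespace Pool.Agent.Results.MP_35fdad_lc.No

open Sum

/-- Strict linear orders on `α`; `r.1 x y` means that `x` is preferred to `y`. -/
def STO (α : Type) : Type := {r : α → α → Prop // IsStrictTotalOrder α r}

variable {M W : Type}

/-- The outcomes of an agent: an agent of the other side, or `none` (unmatched). -/
def Opt (M W : Type) : M ⊕ W → Type
  | inl _ => Option W
  | inr _ => Option M

/-- Profiles of strict linear orders. -/
def Profile (M W : Type) : Type := ∀ i : M ⊕ W, STO (Opt M W i)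

structure Matching (M W : Type) where
  pm : M → Option W
  pw : W → Option M
  compat : ∀ m w, pm m = some w ↔ pw w = some m

def Matching.partner (μ : Matching M W) : ∀ i : M ⊕ W, Opt M W i
  | inl m => μ.pm m
  | inr w => μ.pw w

def Stable (P : Profile M W) (μ : Matching M W) : Prop :=
  (∀ m, ¬ (P (inl m)).1 none (μ.pm m)) ∧ (∀ w, ¬ (P (inr w)).1 none (μ.pw w)) ∧
    ∀ m w, ¬ ((P (inl m)).1 (some w) (μ.pm m) ∧ (P (inr w)).1 (some m) (μ.pw w))

variable [DecidableEq M] [DecidableEq W]

/-- `F` is `k`-known-agents safely manipulable. -/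
def Manip (F : Profile M W → Matching M W) (k : ℕ) : Prop :=
  ∃ (i : M ⊕ W) (tr : STO (Opt M W i)) (K : Finset (M ⊕ W)) (P₀ : Profile M W)
    (r : STO (Opt M W i)), i ∉ K ∧ K.card = k ∧ r ≠ tr ∧
    (∀ P : Profile M W, (∀ j ∈ K, P j = P₀ j) →
      (F (Function.update P i r)).partner i = (F (Function.update P i tr)).partner i ∨
      tr.1 ((F (Function.update P i r)).partner i) ((F (Function.update P i tr)).partner i)) ∧
    ∃ P : Profile M W, (∀ j ∈ K, P j = P₀ j) ∧
      tr.1 ((F (Function.update P i r)).partner i) ((F (Function.update P i tr)).partner i)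

/-- The RAT-degree: the least `k < n` for which `F` is manipulable, and `n` if there is none. -/
noncomputable def RAT [Fintype M] [Fintype W] (F : Profile M W → Matching M W) : ℕ :=
  sInf ({k | k < Fintype.card M + Fintype.card W ∧ Manip F k} ∪
    {Fintype.card M + Fintype.card W})

/-- `x` first, `y` second. -/
def Top2 {α : Type} (r : STO α) (x y : α) : Prop :=
  (∀ t, t ≠ x → r.1 x t) ∧ ∀ t, t ≠ x → t ≠ y → r.1 y t

theorem exists_top2 {α : Type} [Finite α] (x y : α) (h : x ≠ y) : ∃ r : STO α, Top2 r x y := by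
  classical
  obtain ⟨e, he⟩ := Countable.exists_injective_nat α
  let rk : α → ℕ := fun t => if t = x then 0 else if t = y then 1 else e t + 2
  have hinj : Function.Injective rk := by
    intro a b hab
    simp only [rk] at hab
    split_ifs at hab <;> first | omega | (simp_all; done) | exact he (by omega)
  refine ⟨⟨fun a b => rk a < rk b,
    { trichotomous := fun a b h1 h2 => hinj (by omega)
      irrefl := fun a => lt_irrefl _
      trans := fun a b c h1 h2 => h1.trans h2 }⟩, fun t ht => ?_, fun t ht ht' => ?_⟩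
  · simp only [rk, if_pos, if_neg ht]; split_ifs <;> omega
  · simp only [rk, if_neg h.symm, if_pos, if_neg ht, if_neg ht']; omega

omit [DecidableEq M] [DecidableEq W] in
theorem force_w {P : Profile M W} {μ : Matching M W} (h : Stable P μ) {m1 m2 : M} {w1 w2 : W}
    (hm : m1 ≠ m2)
    (a1 : Top2 (α := Option W) (P (inl m1)) (some w1) (some w2))
    (a2 : Top2 (α := Option W) (P (inl m2)) (some w2) (some w1))
    (b2 : Top2 (α := Option M) (P (inr w2)) (some m1) (some m2))
    (b1 : Top2 (α := Option M) (P (inr w1)) (some m2) none) : μ.pw w1 = some m2 := by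
  by_contra hc
  have e2 : μ.pm m2 = some w2 := by
    by_contra h2
    exact h.2.2 m2 w1 ⟨a2.2 _ h2 (fun h3 => hc ((μ.compat _ _).1 h3)), b1.1 _ hc⟩
  have e3 := (μ.compat _ _).1 e2
  have e1 : μ.pm m1 = some w1 := by
    by_contra h1
    refine h.2.2 m1 w2 ⟨a1.2 _ h1 (fun h3 => ?_), b2.1 _ ?_⟩
    · exact hm (Option.some.inj (((μ.compat _ _).1 h3).symm.trans e3))
    · rw [e3]; exact fun h4 => hm (Option.some.inj h4).symm
  have e4 := (μ.compat _ _).1 e1
  exact h.2.1 w1 (b1.2 _ hc (by rw [e4]; simp))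

omit [DecidableEq M] [DecidableEq W] in
theorem force_m {P : Profile M W} {μ : Matching M W} (h : Stable P μ) {m1 m2 : M} {w1 w2 : W}
    (hw : w1 ≠ w2)
    (a1 : Top2 (α := Option W) (P (inl m1)) (some w1) none)
    (a2 : Top2 (α := Option W) (P (inl m2)) (some w2) (some w1))
    (b2 : Top2 (α := Option M) (P (inr w2)) (some m1) (some m2))
    (b1 : Top2 (α := Option M) (P (inr w1)) (some m2) (some m1)) : μ.pm m1 = some w1 := by
  by_contra hc
  have e2 : μ.pw w1 = some m2 := by
    by_contra h2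
    exact h.2.2 m1 w1 ⟨a1.1 _ hc, b1.2 _ h2 (fun h3 => hc ((μ.compat _ _).2 h3))⟩
  have e3 := (μ.compat _ _).2 e2
  have e1 : μ.pw w2 = some m1 := by
    by_contra h1
    refine h.2.2 m2 w2 ⟨a2.1 _ ?_, b2.2 _ h1 (fun h3 => ?_)⟩
    · rw [e3]; exact fun h4 => hw (Option.some.inj h4)
    · exact hw (Option.some.inj (e3.symm.trans ((μ.compat _ _).2 h3)))
  have e4 := (μ.compat _ _).2 e1
  exact h.1 m1 (a1.2 _ hc (by rw [e4]; simp))

theorem top2_ne {α : Type} {r s : STO α} {x y z : α} (h1 : Top2 r x y) (h2 : Top2 s x z)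
    (hy : y ≠ x) (hz : z ≠ x) (hyz : y ≠ z) : r ≠ s := by
  rintro rfl
  have := r.2
  exact asymm (h1.2 z hz hyz.symm) (h2.2 y hy hyz)

theorem t2c {α : Type} {r s : STO α} {x y : α} (h : r = s) (h2 : Top2 s x y) : Top2 r x y :=
  h ▸ h2

theorem upd_self (P : Profile M W) (i : M ⊕ W) (r : STO (Opt M W i)) :
    Function.update P i r i = r := Function.update_self ..

theorem upd_ne (P : Profile M W) {i j : M ⊕ W} (r : STO (Opt M W i)) (h : j ≠ i) :
    Function.update P i r j = P j := Function.update_of_ne h ..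

theorem upd_eq (P : Profile M W) (i : M ⊕ W) (r : STO (Opt M W i)) (h : P i = r) :
    Function.update P i r = P := by subst h; exact Function.update_eq_self ..

theorem manip3 [Finite M] [Finite W] (F : Profile M W → Matching M W)
    (hF : ∀ P, Stable P (F P)) {m1 m2 : M} {w1 w2 : W} (hm : m1 ≠ m2) (hw : w1 ≠ w2) :
    Manip F 3 := by
  have sm : (some m1 : Option M) ≠ some m2 := fun h => hm (Option.some.inj h)
  have sw : (some w1 : Option W) ≠ some w2 := fun h => hw (Option.some.inj h)
  obtain ⟨A1, a1⟩ := exists_top2 (some w1) (some w2) sw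
  obtain ⟨A2, a2⟩ := exists_top2 (some w2) (some w1) sw.symm
  obtain ⟨B1, b1⟩ := exists_top2 (some m2) (some m1) sm.symm
  obtain ⟨B2, b2⟩ := exists_top2 (some m1) (some m2) sm
  obtain ⟨A0, a0⟩ := exists_top2 (some w1) none (by simp)
  obtain ⟨B0, b0⟩ := exists_top2 (some m2) none (by simp)
  let P₀ : Profile M W := fun i => match i with
    | inl m => if m = m1 then A1 else A2
    | inr w => if w = w1 then B1 else B2
  have p1 : P₀ (inl m1) = A1 := if_pos rfl
  have p2 : P₀ (inl m2) = A2 := if_neg hm.symm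
  have q1 : P₀ (inr w1) = B1 := if_pos rfl
  have q2 : P₀ (inr w2) = B2 := if_neg hw.symm
  by_cases hc : (F P₀).pw w1 = some m2
  · have key : ∀ P : Profile M W, (∀ j ∈ ({inl m2, inr w1, inr w2} : Finset (M ⊕ W)),
        P j = P₀ j) → (F (Function.update P (inl m1) A0)).partner (inl m1) = some w1 := by
      intro P hP
      refine force_m (hF _) hw (m2 := m2) ?_ ?_ ?_ ?_
      · exact t2c (upd_self P (inl m1) A0) a0
      · exact t2c ((upd_ne P _ (by simpa using hm.symm)).trans ((hP _ (by simp)).trans p2)) a2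
      · exact t2c ((upd_ne P _ (by simp)).trans ((hP _ (by simp)).trans q2)) b2
      · exact t2c ((upd_ne P _ (by simp)).trans ((hP _ (by simp)).trans q1)) b1
    refine ⟨inl m1, A1, {inl m2, inr w1, inr w2}, P₀, A0, by simpa using hm, ?_,
      top2_ne a0 a1 (by simp) sw.symm (by simp), fun P hP => ?_, P₀, fun _ _ => rfl, ?_⟩
    · rw [Finset.card_insert_of_notMem (by simp), Finset.card_pair (by simpa using hw)]
    · rw [key P hP]
      exact (eq_or_ne _ _).imp id fun h => a1.1 _ h.symm
    · rw [key P₀ fun _ _ => rfl, upd_eq P₀ (inl m1) A1 p1]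
      refine a1.1 _ fun h => ?_
      exact sm ((((F P₀).compat _ _).1 h).symm.trans hc)
  · have key : ∀ P : Profile M W, (∀ j ∈ ({inr w2, inl m1, inl m2} : Finset (M ⊕ W)),
        P j = P₀ j) → (F (Function.update P (inr w1) B0)).partner (inr w1) = some m2 := by
      intro P hP
      refine force_w (hF _) hm (w2 := w2) ?_ ?_ ?_ ?_
      · exact t2c ((upd_ne P _ (by simp)).trans ((hP _ (by simp)).trans p1)) a1
      · exact t2c ((upd_ne P _ (by simp)).trans ((hP _ (by simp)).trans p2)) a2
      · exact t2c ((upd_ne P _ (by simpa using hw.symm)).trans ((hP _ (by simp)).trans q2)) b2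
      · exact t2c (upd_self P (inr w1) B0) b0
    refine ⟨inr w1, B1, {inr w2, inl m1, inl m2}, P₀, B0, by simpa using hw, ?_,
      top2_ne b0 b1 (by simp) sm (by simp), fun P hP => ?_, P₀, fun _ _ => rfl, ?_⟩
    · rw [Finset.card_insert_of_notMem (by simp), Finset.card_pair (by simpa using hm)]
    · rw [key P hP]
      exact (eq_or_ne _ _).imp id fun h => b1.1 _ h.symm
    · rw [key P₀ fun _ _ => rfl, upd_eq P₀ (inr w1) B1 q1]
      exact b1.1 _ hc

theorem rat_le [Fintype M] [Fintype W] (hM : 2 ≤ Fintype.card M) (hW : 2 ≤ Fintype.card W)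
    (F : Profile M W → Matching M W) (hF : ∀ P, Stable P (F P)) : RAT F ≤ 3 := by
  obtain ⟨m1, m2, hm⟩ := Fintype.exists_pair_of_one_lt_card (α := M) (by omega)
  obtain ⟨w1, w2, hw⟩ := Fintype.exists_pair_of_one_lt_card (α := W) (by omega)
  exact Nat.sInf_le (Or.inl ⟨by omega, manip3 F hF hm hw⟩)

theorem result :
    (∀ (M W : Type) [Fintype M] [Fintype W] [DecidableEq M] [DecidableEq W],
      2 ≤ Fintype.card M → 2 ≤ Fintype.card W →
      ∀ F : Profile M W → Matching M W, (∀ P, Stable P (F P)) → RAT F ≤ 3) ∧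
    ¬ ∃ (F : ∀ a b : ℕ, Profile (Fin a) (Fin b) → Matching (Fin a) (Fin b)) (c : ℝ) (n₀ : ℕ),
      0 < c ∧ (∀ a b P, Stable P (F a b P)) ∧
        ∀ a b : ℕ, n₀ ≤ a + b → c * ((a + b : ℕ) : ℝ) ≤ RAT (F a b) := by
  refine ⟨fun M W _ _ _ _ hM hW F hF => rat_le hM hW F hF, ?_⟩
  rintro ⟨F, c, n₀, hc, hF, h⟩
  obtain ⟨N, hN⟩ := exists_nat_gt (3 / c)
  have h1 := h (N + n₀ + 2) 2 (by omega)
  have h2 : (RAT (F (N + n₀ + 2) 2) : ℝ) ≤ 3 := by
    exact_mod_cast rat_le (by simp) (by simp) _ (hF _ _)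
  rw [div_lt_iff₀ hc] at hN
  push_cast at h1
  have : (0 : ℝ) ≤ n₀ := Nat.cast_nonneg _
  nlinarith

end Pool.Agent.Results.MP_35fdad_lc.No
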